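import Mathlib

set_option autoImplicit false

open Polynomial MeasureTheory intervalIntegral

namespace Pool.Agent.Results.MP_c605fa_an.MinArcLength

/-- The class `M_n`: real monic polynomials of degree `n` all of whose zeros are real and lie
in `[-1,1]`, repeated zeros allowed. -/
def Mclass (n : ℕ) : Set ℝ[X] :=
  {P | ∃ x : Fin n → ℝ, (∀ i, x i ∈ Set.Icc (-1 : ℝ) 1) ∧ P = ∏ i, (X - C (x i))}

/-- Length of the graph of `P` over `[-1,1]`. -/
noncomputable def arcLength (P : ℝ[X]) : ℝ :=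
  ∫ x in (-1 : ℝ)..1, Real.sqrt (1 + (P.derivative.eval x) ^ 2)

lemma root_pos (u : ℝ) : 0 < Real.sqrt (1 + u ^ 2) := Real.sqrt_pos.mpr (by positivity)

lemma root_sq (u : ℝ) : Real.sqrt (1 + u ^ 2) ^ 2 = 1 + u ^ 2 := Real.sq_sqrt (by positivity)

lemma tangent (u v : ℝ) : Real.sqrt (1 + v ^ 2) + v / Real.sqrt (1 + v ^ 2) * (u - v)
    ≤ Real.sqrt (1 + u ^ 2) := by
  have hA := root_pos u
  have hB := root_pos v
  have hB2 := root_sq v
  have hAB : 1 + u * v ≤ Real.sqrt (1 + u ^ 2) * Real.sqrt (1 + v ^ 2) := by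
    rw [← Real.sqrt_mul (by positivity)]
    apply Real.le_sqrt_of_sq_le
    nlinarith [sq_nonneg (u - v)]
  have e : Real.sqrt (1 + v ^ 2) + v / Real.sqrt (1 + v ^ 2) * (u - v)
      = (1 + u * v) / Real.sqrt (1 + v ^ 2) := by
    rw [eq_div_iff hB.ne', add_mul, ← sq, hB2]
    field_simp
    ring
  rw [e, div_le_iff₀ hB]
  exact hAB

lemma tangent_lt {u v : ℝ} (huv : u ≠ v) :
    Real.sqrt (1 + v ^ 2) + v / Real.sqrt (1 + v ^ 2) * (u - v) < Real.sqrt (1 + u ^ 2) := by
  have hA := root_pos u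
  have hB := root_pos v
  have hB2 := root_sq v
  have hAB : 1 + u * v < Real.sqrt (1 + u ^ 2) * Real.sqrt (1 + v ^ 2) := by
    rw [← Real.sqrt_mul (by positivity)]
    apply Real.lt_sqrt_of_sq_lt
    have : 0 < (u - v) ^ 2 := by
      have := sub_ne_zero.mpr huv
      positivity
    nlinarith
  have e : Real.sqrt (1 + v ^ 2) + v / Real.sqrt (1 + v ^ 2) * (u - v)
      = (1 + u * v) / Real.sqrt (1 + v ^ 2) := by
    rw [eq_div_iff hB.ne', add_mul, ← sq, hB2]
    field_simp
    ring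
  rw [e, div_lt_iff₀ hB]
  exact hAB

lemma cont_q (P : ℝ[X]) :
    Continuous fun x : ℝ => P.eval x / Real.sqrt (1 + (P.eval x) ^ 2) := by
  have h1 : Continuous fun x : ℝ => Real.sqrt (1 + (P.eval x) ^ 2) := by fun_prop
  exact P.continuous.div h1 fun x => (root_pos _).ne'

/-- sufficient condition for a minimiser among all monic polynomials -/
lemma verify {n : ℕ} {P₀ : ℝ[X]} (h₀ : P₀.Monic) (hn₀ : P₀.natDegree = n) (hn : 2 ≤ n)
    (orth : ∀ k, k + 1 < n → ∫ x in (-1 : ℝ)..1, x ^ k * (P₀.derivative.eval x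
      / Real.sqrt (1 + (P₀.derivative.eval x) ^ 2)) = 0)
    {P : ℝ[X]} (h : P.Monic) (hnP : P.natDegree = n) :
    arcLength P₀ ≤ arcLength P ∧ (arcLength P = arcLength P₀ → P.derivative = P₀.derivative) := by
  set Q := P₀.derivative with hQ
  set R := P.derivative - Q with hR
  have hdeg : R.natDegree < n - 1 := by
    have h1 : (P - P₀).natDegree < n := by
      have h2 : (P - P₀).degree < P.degree := by
        apply degree_sub_lt_left
        · rw [degree_eq_natDegree h.ne_zero, degree_eq_natDegree h₀.ne_zero, hnP, hn₀]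
        · exact h.ne_zero
        · rw [h.leadingCoeff, h₀.leadingCoeff]
      by_cases h3 : P - P₀ = 0
      · rw [h3, natDegree_zero]; omega
      · rw [degree_eq_natDegree h3, degree_eq_natDegree h.ne_zero, hnP] at h2
        exact_mod_cast h2
    have h4 : R = (P - P₀).derivative := by rw [hR, hQ, derivative_sub]
    by_cases h5 : (P - P₀).natDegree = 0
    · rw [h4, eq_C_of_natDegree_eq_zero h5, derivative_C, natDegree_zero]; omega
    · have := natDegree_derivative_lt h5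
      rw [h4]; omega
  have hzero : ∫ x in (-1 : ℝ)..1, Q.eval x / Real.sqrt (1 + (Q.eval x) ^ 2) * R.eval x = 0 := by
    have e1 : ∀ x : ℝ, Q.eval x / Real.sqrt (1 + (Q.eval x) ^ 2) * R.eval x
        = ∑ k ∈ Finset.range (n - 1), R.coeff k * (x ^ k * (Q.eval x
          / Real.sqrt (1 + (Q.eval x) ^ 2))) := by
      intro x
      rw [eval_eq_sum_range' hdeg x, Finset.mul_sum]
      exact Finset.sum_congr rfl fun k _ => by ring
    simp only [e1]
    rw [intervalIntegral.integral_finsetSum]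
    · apply Finset.sum_eq_zero
      intro k hk
      rw [Finset.mem_range] at hk
      rw [intervalIntegral.integral_const_mul, orth k (by omega), mul_zero]
    · intro k _
      exact (continuous_const.mul ((continuous_pow k).mul (cont_q Q))).intervalIntegrable _ _
  have c0 : Continuous fun x : ℝ => Real.sqrt (1 + (Q.eval x) ^ 2) := by fun_prop
  have c1 : Continuous fun x : ℝ => Q.eval x / Real.sqrt (1 + (Q.eval x) ^ 2) * R.eval x :=
    (cont_q Q).mul R.continuous
  have c2 : Continuous fun x : ℝ => Real.sqrt (1 + (P.derivative.eval x) ^ 2) := by fun_prop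
  have hsum : ∫ x in (-1 : ℝ)..1, (Real.sqrt (1 + (Q.eval x) ^ 2)
      + Q.eval x / Real.sqrt (1 + (Q.eval x) ^ 2) * R.eval x) = arcLength P₀ := by
    rw [intervalIntegral.integral_add (c0.intervalIntegrable _ _) (c1.intervalIntegrable _ _),
      hzero, add_zero]
    rfl
  have hRe : ∀ x : ℝ, R.eval x = P.derivative.eval x - Q.eval x := fun x => by
    rw [hR, eval_sub]
  have hle : ∀ x : ℝ, Real.sqrt (1 + (Q.eval x) ^ 2)
      + Q.eval x / Real.sqrt (1 + (Q.eval x) ^ 2) * R.eval x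
      ≤ Real.sqrt (1 + (P.derivative.eval x) ^ 2) := fun x => by
    rw [hRe]; exact tangent _ _
  refine ⟨?_, ?_⟩
  · rw [← hsum]
    apply intervalIntegral.integral_mono_on (by norm_num) ((c0.add c1).intervalIntegrable _ _)
      (c2.intervalIntegrable _ _)
    intro x _
    exact hle x
  · intro heq
    by_contra hne
    have hR0 : R ≠ 0 := sub_ne_zero.mpr hne
    -- a point where the derivatives differ
    have hex : ∃ c ∈ Set.Icc (-1 : ℝ) 1, R.eval c ≠ 0 := by
      by_contra hcon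
      push Not at hcon
      apply hR0
      apply Polynomial.eq_zero_of_infinite_isRoot
      apply Set.Infinite.mono (s := Set.Icc (-1 : ℝ) 1)
      · intro x hx
        exact hcon x hx
      · exact Set.Icc_infinite (by norm_num)
    obtain ⟨c, hc, hcR⟩ := hex
    have hlt : ∫ x in (-1 : ℝ)..1, (Real.sqrt (1 + (Q.eval x) ^ 2)
        + Q.eval x / Real.sqrt (1 + (Q.eval x) ^ 2) * R.eval x)
        < ∫ x in (-1 : ℝ)..1, Real.sqrt (1 + (P.derivative.eval x) ^ 2) := by
      apply intervalIntegral.integral_lt_integral_of_continuousOn_of_le_of_exists_lt (by norm_num)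
        (c0.add c1).continuousOn c2.continuousOn (fun x _ => hle x)
      refine ⟨c, hc, ?_⟩
      show Real.sqrt (1 + (Q.eval c) ^ 2) + Q.eval c / Real.sqrt (1 + (Q.eval c) ^ 2) * R.eval c
        < Real.sqrt (1 + (P.derivative.eval c) ^ 2)
      rw [hRe] at hcR ⊢
      exact tangent_lt (sub_ne_zero.mp hcR)
    rw [hsum] at hlt
    exact absurd heq hlt.ne'

/-! ### degree three -/

/-- the function whose zero gives the minimiser of degree three -/
noncomputable def g3 (t : ℝ) : ℝ :=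
  ∫ x in (-1 : ℝ)..1, (3 * x ^ 2 - t) / Real.sqrt (1 + (3 * x ^ 2 - t) ^ 2)

/-- the function whose zero gives the minimiser of degree four -/
noncomputable def g4 (s : ℝ) : ℝ :=
  ∫ x in (-1 : ℝ)..1, x * ((4 * x ^ 3 - 4 * s * x) / Real.sqrt (1 + (4 * x ^ 3 - 4 * s * x) ^ 2))

lemma g3_cont : Continuous g3 := by
  unfold g3
  apply intervalIntegral.continuous_parametric_intervalIntegral_of_continuous'
  have h1 : Continuous fun z : ℝ × ℝ => 3 * z.2 ^ 2 - z.1 := by fun_prop
  have h2 : Continuous fun z : ℝ × ℝ => Real.sqrt (1 + (3 * z.2 ^ 2 - z.1) ^ 2) := by fun_prop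
  exact h1.div h2 fun z => (root_pos _).ne'

lemma g4_cont : Continuous g4 := by
  unfold g4
  apply intervalIntegral.continuous_parametric_intervalIntegral_of_continuous'
  have h0 : Continuous fun z : ℝ × ℝ => z.2 := continuous_snd
  have h1 : Continuous fun z : ℝ × ℝ => 4 * z.2 ^ 3 - 4 * z.1 * z.2 := by fun_prop
  have h2 : Continuous fun z : ℝ × ℝ =>
    Real.sqrt (1 + (4 * z.2 ^ 3 - 4 * z.1 * z.2) ^ 2) := by fun_prop
  exact h0.mul (h1.div h2 fun z => (root_pos _).ne')

/-- polynomial upper bound -/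
lemma upper_bound {u : ℝ} (h1 : -1 ≤ u) (h2 : u ≤ 2) : u / Real.sqrt (1 + u ^ 2)
    ≤ 7 / 250 + 9 / 10 * u + u ^ 2 / 25 - 27 / 200 * u ^ 3 := by
  have hR := root_pos u
  rw [div_le_iff₀ hR]
  set r := Real.sqrt (1 + u ^ 2) with hr
  have hr2 : r ^ 2 = 1 + u ^ 2 := root_sq u
  rcases le_total 0 u with h0 | h0
  · have hp : 0 ≤ 7 / 250 + 9 / 10 * u + u ^ 2 / 25 - 27 / 200 * u ^ 3 := by
      have : 0 ≤ u * (9 / 10 + u / 25 - 27 / 200 * u ^ 2) := by
        apply mul_nonneg h0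
        nlinarith
      nlinarith
    rcases le_total u (8 / 5) with h3 | h3
    · have hT : (15 + 8 * u) / 17 ≤ r := by
        rw [hr]
        apply Real.le_sqrt_of_sq_le
        nlinarith [sq_nonneg (u - 8 / 15)]
      have h4 := mul_le_mul_of_nonneg_left hT hp
      refine le_trans ?_ h4
      nlinarith [mul_nonneg h0 (sub_nonneg.2 h3), mul_nonneg (mul_nonneg h0 h0) (sub_nonneg.2 h3),
        mul_nonneg (mul_nonneg (mul_nonneg h0 h0) h0) (sub_nonneg.2 h3), sq_nonneg (u - 1 / 5)]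
    · have hT : (8 + 15 * u) / 17 ≤ r := by
        rw [hr]
        apply Real.le_sqrt_of_sq_le
        nlinarith [sq_nonneg (u - 15 / 8)]
      have h4 := mul_le_mul_of_nonneg_left hT hp
      refine le_trans ?_ h4
      nlinarith [mul_nonneg (sub_nonneg.2 h3) (sub_nonneg.2 h2),
        mul_nonneg (mul_nonneg h0 (sub_nonneg.2 h3)) (sub_nonneg.2 h2),
        mul_nonneg (mul_nonneg (mul_nonneg h0 h0) (sub_nonneg.2 h3)) (sub_nonneg.2 h2)]
  · rcases le_total 0 (7 / 250 + 9 / 10 * u + u ^ 2 / 25 - 27 / 200 * u ^ 3) with hp | hp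
    · exact h0.trans (mul_nonneg hp hR.le)
    · have hT : r ≤ (41 / 16 + u ^ 2) * (2 / 5) := by
        nlinarith [sq_nonneg (r - 5 / 4)]
      have h4 := mul_le_mul_of_nonpos_left hT hp
      refine le_trans ?_ h4
      nlinarith [mul_nonneg (neg_nonneg.2 h0) (by linarith : 0 ≤ 1 + u),
        mul_nonneg (mul_nonneg (neg_nonneg.2 h0) (neg_nonneg.2 h0)) (by linarith : 0 ≤ 1 + u),
        mul_nonneg (mul_nonneg (mul_nonneg (neg_nonneg.2 h0) (neg_nonneg.2 h0)) (neg_nonneg.2 h0))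
          (by linarith : 0 ≤ 1 + u), sq_nonneg (u + 1 / 5), sq_nonneg (u ^ 2)]

lemma g3_zero : 0 < g3 0 := by
  unfold g3
  have hc : Continuous fun x : ℝ => (3 * x ^ 2 - 0) / Real.sqrt (1 + (3 * x ^ 2 - 0) ^ 2) := by
    have h1 : Continuous fun x : ℝ => 3 * x ^ 2 - 0 := by fun_prop
    have h2 : Continuous fun x : ℝ => Real.sqrt (1 + (3 * x ^ 2 - 0) ^ 2) := by fun_prop
    exact h1.div h2 fun z => (root_pos _).ne'
  apply intervalIntegral.integral_pos (by norm_num) hc.continuousOn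
  · intro x _
    apply div_nonneg _ (root_pos _).le
    rw [sub_zero]; positivity
  · refine ⟨1, by norm_num, ?_⟩
    exact div_pos (by norm_num) (root_pos _)

lemma g3_one : g3 1 < 0 := by
  unfold g3
  have hc : Continuous fun x : ℝ => (3 * x ^ 2 - 1) / Real.sqrt (1 + (3 * x ^ 2 - 1) ^ 2) := by
    have h1 : Continuous fun x : ℝ => 3 * x ^ 2 - 1 := by fun_prop
    have h2 : Continuous fun x : ℝ => Real.sqrt (1 + (3 * x ^ 2 - 1) ^ 2) := by fun_prop
    exact h1.div h2 fun z => (root_pos _).ne'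
  have hle : ∫ x in (-1 : ℝ)..1, (3 * x ^ 2 - 1) / Real.sqrt (1 + (3 * x ^ 2 - 1) ^ 2)
      ≤ ∫ x in (-1 : ℝ)..1, ((7 / 250 - 9 / 10 + 1 / 25 + 27 / 200)
        + (27 / 10 - 6 / 25 - 243 / 200) * x ^ 2 + (9 / 25 + 729 / 200) * x ^ 4
        + (-729 / 200) * x ^ 6) := by
    apply intervalIntegral.integral_mono_on (by norm_num) (hc.intervalIntegrable _ _)
    · apply Continuous.intervalIntegrable
      fun_prop
    · intro x hx
      have h1 : x ^ 2 ≤ 1 := by
        rw [Set.mem_Icc] at hx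
        nlinarith
      have h2 := upper_bound (u := 3 * x ^ 2 - 1) (by nlinarith [sq_nonneg x]) (by linarith)
      refine h2.trans (le_of_eq ?_)
      ring
  refine lt_of_le_of_lt hle ?_
  rw [intervalIntegral.integral_add, intervalIntegral.integral_add, intervalIntegral.integral_add,
    intervalIntegral.integral_const, intervalIntegral.integral_const_mul,
    intervalIntegral.integral_const_mul, intervalIntegral.integral_const_mul, integral_pow,
    integral_pow, integral_pow]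
  · norm_num
  all_goals exact Continuous.intervalIntegrable (by fun_prop) _ _

/-- odd functions have integral zero -/
lemma odd_int {f : ℝ → ℝ} (hf : ∀ x, f (-x) = -f x) : ∫ x in (-1 : ℝ)..1, f x = 0 := by
  have h1 : ∫ x in (-1 : ℝ)..1, f (-x) = ∫ x in (-1 : ℝ)..1, f x := by
    rw [intervalIntegral.integral_comp_neg]
    norm_num
  simp only [hf] at h1
  rw [intervalIntegral.integral_neg] at h1
  linarith

lemma g4_zero : 0 < g4 0 := by
  unfold g4
  have hc : Continuous fun x : ℝ => x * ((4 * x ^ 3 - 4 * 0 * x)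
      / Real.sqrt (1 + (4 * x ^ 3 - 4 * 0 * x) ^ 2)) := by
    have h1 : Continuous fun x : ℝ => 4 * x ^ 3 - 4 * 0 * x := by fun_prop
    have h2 : Continuous fun x : ℝ => Real.sqrt (1 + (4 * x ^ 3 - 4 * 0 * x) ^ 2) := by fun_prop
    exact continuous_id.mul (h1.div h2 fun z => (root_pos _).ne')
  apply intervalIntegral.integral_pos (by norm_num) hc.continuousOn
  · intro x _
    rw [← mul_div_assoc]
    apply div_nonneg _ (root_pos _).le
    have : x * (4 * x ^ 3 - 4 * 0 * x) = 4 * x ^ 4 := by ring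
    rw [this]; positivity
  · refine ⟨1, by norm_num, ?_⟩
    rw [one_mul]
    exact div_pos (by norm_num) (root_pos _)

lemma g4_one : g4 1 < 0 := by
  unfold g4
  have hc : Continuous fun x : ℝ => x * ((4 * x ^ 3 - 4 * 1 * x)
      / Real.sqrt (1 + (4 * x ^ 3 - 4 * 1 * x) ^ 2)) := by
    have h1 : Continuous fun x : ℝ => 4 * x ^ 3 - 4 * 1 * x := by fun_prop
    have h2 : Continuous fun x : ℝ => Real.sqrt (1 + (4 * x ^ 3 - 4 * 1 * x) ^ 2) := by fun_prop
    exact continuous_id.mul (h1.div h2 fun z => (root_pos _).ne')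
  have h : 0 < ∫ x in (-1 : ℝ)..1, -(x * ((4 * x ^ 3 - 4 * 1 * x)
      / Real.sqrt (1 + (4 * x ^ 3 - 4 * 1 * x) ^ 2))) := by
    apply intervalIntegral.integral_pos (by norm_num) hc.neg.continuousOn
    · intro x hx
      show 0 ≤ -(x * ((4 * x ^ 3 - 4 * 1 * x) / Real.sqrt (1 + (4 * x ^ 3 - 4 * 1 * x) ^ 2)))
      rw [← mul_div_assoc, ← neg_div]
      apply div_nonneg _ (root_pos _).le
      have e : -(x * (4 * x ^ 3 - 4 * 1 * x)) = 4 * x ^ 2 * (1 - x ^ 2) := by ring
      rw [e]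
      rw [Set.mem_Ioc] at hx
      have : x ^ 2 ≤ 1 := by nlinarith
      have : 0 ≤ 1 - x ^ 2 := by linarith
      positivity
    · refine ⟨1 / 2, by norm_num, ?_⟩
      show 0 < -((1 / 2 : ℝ) * ((4 * (1 / 2 : ℝ) ^ 3 - 4 * 1 * (1 / 2))
        / Real.sqrt (1 + (4 * (1 / 2 : ℝ) ^ 3 - 4 * 1 * (1 / 2)) ^ 2)))
      rw [← mul_div_assoc, ← neg_div]
      exact div_pos (by norm_num) (root_pos _)
  rw [intervalIntegral.integral_neg] at h
  linarith

lemma exists_t : ∃ t : ℝ, 0 < t ∧ t < 1 ∧ g3 t = 0 := by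
  have h := intermediate_value_Icc' (by norm_num : (0 : ℝ) ≤ 1) g3_cont.continuousOn
  obtain ⟨t, ht, h0⟩ := h ⟨g3_one.le, g3_zero.le⟩
  refine ⟨t, lt_of_le_of_ne ht.1 ?_, lt_of_le_of_ne ht.2 ?_, h0⟩
  · rintro rfl; exact g3_zero.ne' h0
  · rintro rfl; exact g3_one.ne h0

lemma exists_s : ∃ s : ℝ, 0 < s ∧ s < 1 ∧ g4 s = 0 := by
  have h := intermediate_value_Icc' (by norm_num : (0 : ℝ) ≤ 1) g4_cont.continuousOn
  obtain ⟨t, ht, h0⟩ := h ⟨g4_one.le, g4_zero.le⟩
  refine ⟨t, lt_of_le_of_ne ht.1 ?_, lt_of_le_of_ne ht.2 ?_, h0⟩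
  · rintro rfl; exact g4_zero.ne' h0
  · rintro rfl; exact g4_one.ne h0

/-- the cubic `x³ - t x` -/
noncomputable def P3 (t : ℝ) : ℝ[X] := X ^ 3 - C t * X

/-- the quartic `(x² - s)²` -/
noncomputable def P4 (s : ℝ) : ℝ[X] := (X ^ 2 - C s) ^ 2

lemma P3_deriv (t x : ℝ) : (P3 t).derivative.eval x = 3 * x ^ 2 - t := by
  unfold P3
  simp
  norm_num

lemma P4_deriv (s x : ℝ) : (P4 s).derivative.eval x = 4 * x ^ 3 - 4 * s * x := by
  unfold P4
  rw [derivative_pow]
  simp only [derivative_sub, derivative_X_pow, derivative_C, eval_mul, eval_sub, eval_pow, eval_X,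
    eval_C, sub_zero, pow_one, Nat.cast_ofNat, Nat.add_one_sub_one]
  ring

lemma P3_mem {t : ℝ} (h0 : 0 ≤ t) (h1 : t ≤ 1) : P3 t ∈ Mclass 3 := by
  have h2 : Real.sqrt t ≤ 1 := by rw [Real.sqrt_le_one]; exact h1
  have h3 := Real.sqrt_nonneg t
  refine ⟨![0, Real.sqrt t, -Real.sqrt t], ?_, ?_⟩
  · intro i
    fin_cases i
    · simp
    · exact ⟨by simpa using (by linarith : (-1 : ℝ) ≤ Real.sqrt t), by simpa using h2⟩
    · constructor
      · simpa using h2
      · show -Real.sqrt t ≤ 1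
        linarith
  · unfold P3
    rw [Fin.prod_univ_three]
    have e : (C t : ℝ[X]) = C (Real.sqrt t) * C (Real.sqrt t) := by
      rw [← C_mul, Real.mul_self_sqrt h0]
    simp only [Matrix.cons_val_zero, Matrix.cons_val_one, Matrix.cons_val_two, Matrix.tail_cons,
      Matrix.head_cons, C_neg, C_0]
    rw [e]
    ring

lemma P4_mem {s : ℝ} (h0 : 0 ≤ s) (h1 : s ≤ 1) : P4 s ∈ Mclass 4 := by
  have h2 : Real.sqrt s ≤ 1 := by rw [Real.sqrt_le_one]; exact h1
  have h3 := Real.sqrt_nonneg s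
  refine ⟨![Real.sqrt s, -Real.sqrt s, Real.sqrt s, -Real.sqrt s], ?_, ?_⟩
  · have a : Real.sqrt s ∈ Set.Icc (-1 : ℝ) 1 := ⟨by linarith, h2⟩
    have b : -Real.sqrt s ∈ Set.Icc (-1 : ℝ) 1 := ⟨by linarith, by linarith⟩
    intro i
    fin_cases i
    · exact a
    · exact b
    · exact a
    · exact b
  · unfold P4
    rw [Fin.prod_univ_four]
    have e : (C s : ℝ[X]) = C (Real.sqrt s) * C (Real.sqrt s) := by
      rw [← C_mul, Real.mul_self_sqrt h0]
    simp only [Matrix.cons_val_zero, Matrix.cons_val_one, Matrix.cons_val_two, Matrix.tail_cons,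
      Matrix.head_cons, C_neg, Matrix.cons_val_three]
    rw [e]
    ring

lemma Mclass_monic {n : ℕ} {P : ℝ[X]} (h : P ∈ Mclass n) : P.Monic ∧ P.natDegree = n := by
  obtain ⟨x, _, rfl⟩ := h
  refine ⟨monic_prod_of_monic _ _ fun i _ => monic_X_sub_C _, ?_⟩
  rw [natDegree_prod_of_monic _ _ fun i _ => monic_X_sub_C _]
  simp

lemma P3_orth {t : ℝ} (h : g3 t = 0) (k : ℕ) (hk : k + 1 < 3) :
    ∫ x in (-1 : ℝ)..1, x ^ k * ((P3 t).derivative.eval x
      / Real.sqrt (1 + ((P3 t).derivative.eval x) ^ 2)) = 0 := by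
  simp only [P3_deriv]
  have hk' : k = 0 ∨ k = 1 := by omega
  rcases hk' with rfl | rfl
  · simp only [pow_zero, one_mul]
    exact h
  · apply odd_int
    intro x
    have e : (-x) ^ 2 = x ^ 2 := by ring
    rw [e]
    ring

lemma P4_orth {s : ℝ} (h : g4 s = 0) (k : ℕ) (hk : k + 1 < 4) :
    ∫ x in (-1 : ℝ)..1, x ^ k * ((P4 s).derivative.eval x
      / Real.sqrt (1 + ((P4 s).derivative.eval x) ^ 2)) = 0 := by
  simp only [P4_deriv]
  have hk' : k = 0 ∨ k = 1 ∨ k = 2 := by omega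
  have e : ∀ x : ℝ, (4 * (-x) ^ 3 - 4 * s * (-x)) = -(4 * x ^ 3 - 4 * s * x) := fun x => by ring
  rcases hk' with rfl | rfl | rfl
  · apply odd_int
    intro x
    rw [e, neg_sq]
    ring
  · simp only [pow_one]
    exact h
  · apply odd_int
    intro x
    rw [e, neg_sq]
    ring

lemma P3_props (t : ℝ) : (P3 t).Monic ∧ (P3 t).natDegree = 3 := by
  have h : P3 t = X ^ 3 + (-(C t * X)) := by unfold P3; ring
  have hd : (-(C t * X) : ℝ[X]).degree < ((3 : ℕ) : WithBot ℕ) := by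
    rw [degree_neg]
    refine lt_of_le_of_lt (degree_C_mul_X_le t) ?_
    exact_mod_cast (by norm_num : 1 < 3)
  have hm : (P3 t).Monic := by rw [h]; exact monic_X_pow_add hd
  refine ⟨hm, ?_⟩
  rw [h, natDegree_add_eq_left_of_degree_lt (by rw [degree_X_pow]; exact hd), natDegree_X_pow]

lemma P4_props (s : ℝ) : (P4 s).Monic ∧ (P4 s).natDegree = 4 := by
  have hm : (X ^ 2 - C s : ℝ[X]).Monic := monic_X_pow_sub_C s (by norm_num)
  refine ⟨hm.pow 2, ?_⟩
  unfold P4
  rw [hm.natDegree_pow, natDegree_X_pow_sub_C]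

/-- **Main result.** (1) For every `n ≥ 2`: a monic polynomial `P₀` of degree `n` whose derivative
`Q` satisfies the `n - 1` equations `∫ x^k Q / √(1 + Q²) = 0`, `k = 0, ..., n - 2`, has minimal
arc-length among all monic polynomials of degree `n`, and the minimisers are exactly its
translates `P₀ + const`. (2) `n = 3`: there is exactly one real `t` with
`∫ (3x² - t) / √(1 + (3x² - t)²) = 0`, it lies in `(0,1)`, and `x³ - t x` (zeros `0`, `±√t`) is a
minimiser over `M_3`; all the minimisers have the derivative `3x² - t`. (3) `n = 4`: there is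
exactly one real `s` with `∫ x (4x³ - 4sx) / √(1 + (4x³ - 4sx)²) = 0`, it lies in `(0,1)`, and
`(x² - s)²` (double zeros `±√s`) is a minimiser over `M_4`; all the minimisers have the derivative
`4x³ - 4sx`. -/
theorem result :
    (∀ n : ℕ, 2 ≤ n → ∀ P₀ : ℝ[X], P₀.Monic → P₀.natDegree = n →
      (∀ k : ℕ, k + 1 < n → ∫ x in (-1 : ℝ)..1, x ^ k * (P₀.derivative.eval x
        / Real.sqrt (1 + (P₀.derivative.eval x) ^ 2)) = 0) →
      ∀ P : ℝ[X], P.Monic → P.natDegree = n → arcLength P₀ ≤ arcLength P ∧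
        (arcLength P = arcLength P₀ ↔ P.derivative = P₀.derivative)) ∧
    (∃ t : ℝ, 0 < t ∧ t < 1 ∧
      (∀ t' : ℝ, (∫ x in (-1 : ℝ)..1, (3 * x ^ 2 - t') / Real.sqrt (1 + (3 * x ^ 2 - t') ^ 2)) = 0
        ↔ t' = t) ∧
      (X ^ 3 - C t * X : ℝ[X]) ∈ Mclass 3 ∧
      ∀ P ∈ Mclass 3, arcLength (X ^ 3 - C t * X) ≤ arcLength P ∧
        (arcLength P = arcLength (X ^ 3 - C t * X) ↔
          P.derivative = (X ^ 3 - C t * X : ℝ[X]).derivative)) ∧
    (∃ s : ℝ, 0 < s ∧ s < 1 ∧
      (∀ s' : ℝ, (∫ x in (-1 : ℝ)..1, x * ((4 * x ^ 3 - 4 * s' * x)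
        / Real.sqrt (1 + (4 * x ^ 3 - 4 * s' * x) ^ 2))) = 0 ↔ s' = s) ∧
      ((X ^ 2 - C s) ^ 2 : ℝ[X]) ∈ Mclass 4 ∧
      ∀ P ∈ Mclass 4, arcLength ((X ^ 2 - C s) ^ 2) ≤ arcLength P ∧
        (arcLength P = arcLength ((X ^ 2 - C s) ^ 2) ↔
          P.derivative = ((X ^ 2 - C s) ^ 2 : ℝ[X]).derivative)) := by
  have main : ∀ n : ℕ, 2 ≤ n → ∀ P₀ : ℝ[X], P₀.Monic → P₀.natDegree = n →
      (∀ k : ℕ, k + 1 < n → ∫ x in (-1 : ℝ)..1, x ^ k * (P₀.derivative.eval x
        / Real.sqrt (1 + (P₀.derivative.eval x) ^ 2)) = 0) →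
      ∀ P : ℝ[X], P.Monic → P.natDegree = n → arcLength P₀ ≤ arcLength P ∧
        (arcLength P = arcLength P₀ ↔ P.derivative = P₀.derivative) := by
    intro n hn P₀ h₀ hn₀ orth P hP hnP
    have h := verify h₀ hn₀ hn orth hP hnP
    refine ⟨h.1, h.2, fun he => ?_⟩
    unfold arcLength
    rw [he]
  refine ⟨main, ?_, ?_⟩
  · obtain ⟨t, ht0, ht1, ht⟩ := exists_t
    have hmain := main 3 (by norm_num) (P3 t) (P3_props t).1 (P3_props t).2 (P3_orth ht)
    refine ⟨t, ht0, ht1, fun t' => ⟨fun h => ?_, fun h => ?_⟩, P3_mem ht0.le ht1.le,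
      fun P hP => hmain P (Mclass_monic hP).1 (Mclass_monic hP).2⟩
    · have h1 := hmain (P3 t') (P3_props t').1 (P3_props t').2
      have h2 := main 3 (by norm_num) (P3 t') (P3_props t').1 (P3_props t').2 (P3_orth h)
        (P3 t) (P3_props t).1 (P3_props t).2
      have h3 := h1.2.1 (le_antisymm h2.1 h1.1)
      have h4 := congrArg (fun p => Polynomial.eval 0 p) h3
      simp only [P3_deriv] at h4
      linarith
    · rw [h]; exact ht
  · obtain ⟨s, hs0, hs1, hs⟩ := exists_s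
    have hmain := main 4 (by norm_num) (P4 s) (P4_props s).1 (P4_props s).2 (P4_orth hs)
    refine ⟨s, hs0, hs1, fun s' => ⟨fun h => ?_, fun h => ?_⟩, P4_mem hs0.le hs1.le,
      fun P hP => hmain P (Mclass_monic hP).1 (Mclass_monic hP).2⟩
    · have h1 := hmain (P4 s') (P4_props s').1 (P4_props s').2
      have h2 := main 4 (by norm_num) (P4 s') (P4_props s').1 (P4_props s').2 (P4_orth h)
        (P4 s) (P4_props s).1 (P4_props s).2
      have h3 := h1.2.1 (le_antisymm h2.1 h1.1)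
      have h4 := congrArg (fun p => Polynomial.eval 1 p) h3
      simp only [P4_deriv] at h4
      linarith
    · rw [h]; exact hs

end Pool.Agent.Results.MP_c605fa_an.MinArcLength
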